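import Pool.Agent.Q269.CharFour.Equi
import Pool.Agent.Y669.MainC

/-!
# Project CharFour: the averages over the curves with a rational cyclic subgroup of order 4
-/

set_option autoImplicit false

namespace Pool.Agent.Q269.CharFour

open WeierstrassCurve Module Finset
open Pool.Agent.Q269.IsoFour Pool.Agent.Q269.FieldFour
open Pool.Agent.W307.RT (Sh Cv HasT)
open Pool.Agent.Y669 (PartC)

/-- from the curves with full 2-torsion to the curves with a rational cyclic subgroup of order 4 -/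
theorem transfer (f : ℤ × ℤ → ℝ) (hf0 : ∀ c, 0 ≤ f c)
    (hf : ∀ (c : ℤ × ℤ) (c' : (ℤ × ℤ) × ℤ), FR c c' → Dn c → Dn c'.1 → f c ≤ f c'.1)
    {C : ℝ} (hC0 : 0 ≤ C) (hC : ∀ H : ℕ, ∑ c ∈ Cv 2 H, f c ≤ C * (Cv 2 H).card) :
    ∃ C' : ℝ, 0 ≤ C' ∧ ∀ H : ℕ, ∑ c ∈ F4 H, f c ≤ C' * (F4 H).card := by
  obtain ⟨D, hD, H0, hcmp⟩ := compare
  refine ⟨3 * C * (D + (Cv 2 (2000000 * H0)).card), by positivity, fun H => ?_⟩
  have h1 : ∑ c ∈ F4 H, f c ≤ 3 * ∑ c ∈ Cv 2 (2000000 * H), f c := by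
    apply sum_rel (F4 H) _ (fun c c' => FR c c' ∧ Dn c'.1) _ _ hf0
    · intro c hc
      obtain ⟨h1, h2, -, e, s', hP⟩ := mem_F4.1 hc
      obtain ⟨c', g1, g2, g3, g4, g5, g6, g7⟩ := exists_fwd h1 hP
      exact ⟨c', ⟨g1, g2⟩, mem_Cv2.2 ⟨g2, g4 H h2, g3, g5⟩, g6, hf _ _ g1 h1 g2⟩
    · intro c1 h1 c2 h2 d r1 r2
      exact FR_inj r1.1 r2.1 (mem_F4.1 h1).2.2.1 (mem_F4.1 h2).2.2.1
  have h2 := hC (2000000 * H)
  rcases le_or_gt H0 H with hH | hH
  · obtain ⟨g1, g2⟩ := hcmp H hH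
    calc ∑ c ∈ F4 H, f c
        ≤ 3 * (C * (Cv 2 (2000000 * H)).card) := by linarith
      _ ≤ 3 * (C * (D * (F4 H).card)) := by gcongr
      _ ≤ 3 * C * (D + (Cv 2 (2000000 * H0)).card) * (F4 H).card := by
        have : 0 ≤ 3 * C * ((Cv 2 (2000000 * H0)).card : ℝ) * (F4 H).card := by positivity
        linarith
  · rcases Nat.eq_zero_or_pos (F4 H).card with h0 | h0
    · rw [card_eq_zero] at h0
      rw [h0]
      simp
    · have g1 : (1 : ℝ) ≤ (F4 H).card := by exact_mod_cast h0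
      have g2 : ((Cv 2 (2000000 * H)).card : ℝ) ≤ (Cv 2 (2000000 * H0)).card := by
        exact_mod_cast card_le_card (Cv_mono (Nat.mul_le_mul_left _ hH.le))
      calc ∑ c ∈ F4 H, f c
          ≤ 3 * (C * (Cv 2 (2000000 * H)).card) := by linarith
        _ ≤ 3 * (C * (Cv 2 (2000000 * H0)).card) := by gcongr
        _ = 3 * C * (Cv 2 (2000000 * H0)).card * 1 := by ring
        _ ≤ 3 * C * (Cv 2 (2000000 * H0)).card * (F4 H).card := by gcongr
        _ ≤ 3 * C * (D + (Cv 2 (2000000 * H0)).card) * (F4 H).card := by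
          have : 0 ≤ 3 * C * D * (F4 H).card := by positivity
          linarith

/-- the averages of `4 ^ m_χ` for the characters of 2-power order -/
theorem avg_char (N : ℕ) [NeZero N] (F : Type) [Field F] [NumberField F]
    [IsCyclotomicExtension {N} ℚ F] [DecidableEq F] (χ : (F ≃ₐ[ℚ] F) →* ℂˣ) (hχ : ∃ σ, χ σ ≠ 1)
    (k : ℕ) (hk : ∀ σ, χ σ ^ (2 ^ k) = 1) :
    ∃ C : ℝ, 0 ≤ C ∧ ∀ H : ℕ,
      ∑ c ∈ F4 H, (4 : ℝ) ^ (finrank ℂ (PartC F χ (Sh c.1 c.2))) ≤ C * (F4 H).card := by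
  classical
  have hex : ∃ k : ℕ, ∀ σ, χ σ ^ (2 ^ k) = 1 := ⟨k, hk⟩
  obtain ⟨b, hb⟩ : ∃ b, b = Nat.find hex := ⟨_, rfl⟩
  have h1 := Nat.find_spec hex
  rw [← hb] at h1
  rcases b with _ | a
  · obtain ⟨σ, hσ⟩ := hχ
    exact absurd (by simpa using h1 σ) hσ
  · have h2 : ∃ σ, χ σ ^ (2 ^ a) ≠ 1 := by
      by_contra hcon
      push Not at hcon
      have := Nat.find_min' hex hcon
      omega
    obtain ⟨C, hC⟩ := Pool.Agent.Y669.avg_char N χ a h1 h2
    refine transfer _ (fun c => by positivity) ?_ (le_max_right C 0) (fun H => ?_)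
    · intro c c' h hc hc'
      exact pow_le_pow_right₀ (by norm_num) (mult_FR χ h hc hc')
    · exact (hC H).trans (mul_le_mul_of_nonneg_right (le_max_left _ _) (by positivity))

end Pool.Agent.Q269.CharFour
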