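import Pool.Agent.Q269.FieldFour.Rank
import Pool.Agent.Y669.DescF

/-!
# Project CharFour: the 2-isogeny and the action of the Galois group
-/

set_option autoImplicit false

namespace Pool.Agent.Q269.CharFour

open WeierstrassCurve Module Finset TensorProduct
open Pool.Agent.Y700 (VR)
open Pool.Agent.Q269.IsoFour Pool.Agent.Q269.FieldFour
open Pool.Agent.W307.RT (Sh Cv HasT)
open Pool.Agent.Y669 (PartC gact)

section alg

variable {M N : Type} [AddCommGroup M] [AddCommGroup N]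

theorem tor_zero (K : Type) [AddCommGroup K] (h : ∀ P : K, ∃ n : ℤ, n ≠ 0 ∧ n • P = 0)
    (w : ℂ ⊗[ℤ] K) : w = 0 := by
  induction w using TensorProduct.induction_on with
  | zero => rfl
  | tmul c P =>
    obtain ⟨n, hn, hP⟩ := h P
    have h1 : c = n • (c / n) := by
      rw [zsmul_eq_mul]
      have : (n : ℂ) ≠ 0 := by exact_mod_cast hn
      field_simp
    rw [h1, TensorProduct.smul_tmul, hP, TensorProduct.tmul_zero]
  | add x y hx hy => rw [hx, hy, add_zero]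

theorem bc_inj (f : M →+ N) (hf : ∀ P, f P = 0 → ∃ n : ℤ, n ≠ 0 ∧ n • P = 0) :
    Function.Injective (LinearMap.baseChange ℂ f.toIntLinearMap) := by
  have hflat : Module.Flat ℤ ℂ := by
    have : Module.Flat ℤ ℚ := IsLocalization.flat ℚ (nonZeroDivisors ℤ)
    exact Module.Flat.trans ℤ ℚ ℂ
  rw [injective_iff_map_eq_zero]
  intro v hv
  have h1 : Function.Exact (LinearMap.ker f.toIntLinearMap).subtype f.toIntLinearMap :=
    LinearMap.exact_subtype_ker_map _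
  have h2 := Module.Flat.lTensor_exact ℂ h1
  obtain ⟨w, hw⟩ := (h2 v).1 hv
  rw [← hw, tor_zero _ _ w, map_zero]
  rintro ⟨P, hP⟩
  obtain ⟨n, hn, h3⟩ := hf P hP
  exact ⟨n, hn, Subtype.ext h3⟩

end alg

section act

variable {F : Type} [Field F] [NumberField F] [DecidableEq F]

/-- the multiplicity does not decrease under an equivariant homomorphism with torsion kernel -/
theorem part_le (χ : (F ≃ₐ[ℚ] F) →* ℂˣ) {W W' : WeierstrassCurve ℚ}
    (hfin : Module.Finite ℤ (W'.baseChange F).toAffine.Point)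
    (f : (W.baseChange F).toAffine.Point →+ (W'.baseChange F).toAffine.Point)
    (hf : ∀ P, f P = 0 → ∃ n : ℤ, n ≠ 0 ∧ n • P = 0)
    (hc : ∀ (σ : F ≃ₐ[ℚ] F) P, f (gact W σ P) = gact W' σ (f P)) :
    finrank ℂ (PartC F χ W) ≤ finrank ℂ (PartC F χ W') := by
  have hcc : ∀ (σ : F ≃ₐ[ℚ] F) (v : ℂ ⊗[ℤ] (W.baseChange F).toAffine.Point),
      LinearMap.baseChange ℂ f.toIntLinearMap (LinearMap.baseChange ℂ
        (gact W σ).toIntLinearMap v) =
      LinearMap.baseChange ℂ (gact W' σ).toIntLinearMap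
        (LinearMap.baseChange ℂ f.toIntLinearMap v) := by
    intro σ v
    induction v using TensorProduct.induction_on with
    | zero => simp
    | tmul c P =>
      simp only [LinearMap.baseChange_tmul]
      congr 1
      exact hc σ P
    | add x y hx hy => simp only [map_add, hx, hy]
  have hmem : ∀ v : PartC F χ W, LinearMap.baseChange ℂ f.toIntLinearMap (v : ℂ ⊗[ℤ] _) ∈
      PartC F χ W' := by
    intro v σ
    have h1 := hcc σ v
    have h2 : LinearMap.baseChange ℂ (gact W σ).toIntLinearMap (v : ℂ ⊗[ℤ] _) =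
      ((χ σ : ℂˣ) : ℂ) • (v : ℂ ⊗[ℤ] _) := v.2 σ
    rw [h2, map_smul] at h1
    exact h1.symm
  have := hfin
  apply LinearMap.finrank_le_finrank_of_injective
    (f := ((LinearMap.baseChange ℂ f.toIntLinearMap).domRestrict (PartC F χ W)).codRestrict
      (PartC F χ W') hmem)
  intro v w h
  apply Subtype.ext
  apply bc_inj f hf
  exact congrArg Subtype.val h

/-- the map `(x, y) ↦ (σ x, σ y)` -/
def Act (σ : F ≃ₐ[ℚ] F) {V : WeierstrassCurve F} (g : V.toAffine.Point → V.toAffine.Point) : Prop :=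
  g 0 = 0 ∧ ∀ x y h, ∃ h', g (Affine.Point.some x y h) = Affine.Point.some (σ x) (σ y) h'

theorem act_gact (W : WeierstrassCurve ℚ) (σ : F ≃ₐ[ℚ] F) :
    Act σ (gact W σ : (W.baseChange F).toAffine.Point → (W.baseChange F).toAffine.Point) := by
  refine ⟨map_zero _, fun x y h => ?_⟩
  exact ⟨_, rfl⟩

theorem exists_act (σ : F ≃ₐ[ℚ] F) (V : WeierstrassCurve F) (W : WeierstrassCurve ℚ)
    (h : V = W.baseChange F) : ∃ g : V.toAffine.Point → V.toAffine.Point, Act σ g := by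
  subst h
  exact ⟨_, act_gact W σ⟩

/-- there is an equivariant homomorphism with torsion kernel -/
def Hm (V V' : WeierstrassCurve F) : Prop :=
  ∃ f : V.toAffine.Point →+ V'.toAffine.Point, (∀ P, f P = 0 → ∃ n : ℤ, n ≠ 0 ∧ n • P = 0) ∧
    ∀ (σ : F ≃ₐ[ℚ] F) (g : V.toAffine.Point → V.toAffine.Point)
      (g' : V'.toAffine.Point → V'.toAffine.Point), Act σ g → Act σ g' → ∀ P, f (g P) = g' (f P)

theorem Hm.trans {V V' V'' : WeierstrassCurve F} (h : Hm V V') (h' : Hm V' V'')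
    (hm : ∀ σ : F ≃ₐ[ℚ] F, ∃ g : V'.toAffine.Point → V'.toAffine.Point, Act σ g) : Hm V V'' := by
  obtain ⟨f, hf1, hf2⟩ := h
  obtain ⟨f', hf1', hf2'⟩ := h'
  refine ⟨f'.comp f, ?_, ?_⟩
  · intro P hP
    obtain ⟨n, hn, h1⟩ := hf1' (f P) hP
    rw [← map_zsmul] at h1
    obtain ⟨m, hm, h2⟩ := hf1 _ h1
    exact ⟨m * n, mul_ne_zero hm hn, by rw [mul_smul]; exact h2⟩
  · intro σ g g'' hg hg'' P
    obtain ⟨g', hg'⟩ := hm σ
    rw [AddMonoidHom.comp_apply, AddMonoidHom.comp_apply, hf2 σ g g' hg hg',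
      hf2' σ g' g'' hg' hg'']

omit [NumberField F] [DecidableEq F] in
theorem some_ext {V : WeierstrassCurve F} {x y x' y' : F} (hx : x = x') (hy : y = y')
    (h : V.toAffine.Nonsingular x y) (h' : V.toAffine.Nonsingular x' y') :
    Affine.Point.some x y h = Affine.Point.some x' y' h' := by
  subst hx hy
  rfl

theorem hm_vr {W W' : WeierstrassCurve F} {u r s t : F} (h : VR W W' u r s t) (hD : W'.Δ ≠ 0)
    (hu : ∀ σ : F ≃ₐ[ℚ] F, σ u = u) (hr : ∀ σ : F ≃ₐ[ℚ] F, σ r = r)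
    (hs : ∀ σ : F ≃ₐ[ℚ] F, σ s = s) (ht : ∀ σ : F ≃ₐ[ℚ] F, σ t = t) : Hm W' W := by
  refine ⟨(h.equiv hD).toAddMonoidHom, ?_, ?_⟩
  · intro P hP
    refine ⟨1, one_ne_zero, ?_⟩
    rw [one_smul]
    exact (h.equiv hD).injective (by rw [map_zero]; exact hP)
  · intro σ g g' hg hg' P
    show h.fn hD (g P) = g' (h.fn hD P)
    rcases P with _ | ⟨x, y, hn⟩
    · change h.fn hD (g 0) = g' 0
      rw [hg.1, hg'.1]
      rfl
    · obtain ⟨h1, e1⟩ := hg.2 x y hn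
      obtain ⟨h2, e2⟩ := hg'.2 _ _ (Pool.Agent.Y700.nonsing (h.delta_ne hD) (h.eqn.2 hn.1))
      rw [e1, VR.fn_some, VR.fn_some, e2]
      refine some_ext ?_ ?_ _ _
      · rw [map_add, map_mul, map_pow, hu, hr]
      · simp only [map_add, map_mul, map_pow, hu, hs, ht]

theorem hm_vr' {W W' : WeierstrassCurve F} {u r s t : F} (h : VR W W' u r s t) (hD : W'.Δ ≠ 0)
    (hu : ∀ σ : F ≃ₐ[ℚ] F, σ u = u) (hr : ∀ σ : F ≃ₐ[ℚ] F, σ r = r)
    (hs : ∀ σ : F ≃ₐ[ℚ] F, σ s = s) (ht : ∀ σ : F ≃ₐ[ℚ] F, σ t = t) : Hm W W' := by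
  refine ⟨(h.equiv hD).symm.toAddMonoidHom, ?_, ?_⟩
  · intro P hP
    refine ⟨1, one_ne_zero, ?_⟩
    rw [one_smul]
    exact (h.equiv hD).symm.injective (by rw [map_zero]; exact hP)
  · intro σ g' g hg' hg Q
    obtain ⟨P, rfl⟩ := (h.equiv hD).surjective Q
    show (h.equiv hD).symm (g' (h.equiv hD P)) = g ((h.equiv hD).symm (h.equiv hD P))
    rw [AddEquiv.symm_apply_apply, AddEquiv.symm_apply_eq]
    show g' (h.fn hD P) = h.fn hD (g P)
    rcases P with _ | ⟨x, y, hn⟩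
    · change g' 0 = h.fn hD (g 0)
      rw [hg.1, hg'.1]
      rfl
    · obtain ⟨h1, e1⟩ := hg.2 x y hn
      obtain ⟨h2, e2⟩ := hg'.2 _ _ (Pool.Agent.Y700.nonsing (h.delta_ne hD) (h.eqn.2 hn.1))
      rw [e1, VR.fn_some, VR.fn_some, e2]
      refine some_ext ?_ ?_ _ _
      · rw [map_add, map_mul, map_pow, hu, hr]
      · simp only [map_add, map_mul, map_pow, hu, hs, ht]

theorem hm_phi {a b : F} (hD : (Wab (-2 * a) (a ^ 2 - 4 * b)).Δ ≠ 0)
    (_ha : ∀ σ : F ≃ₐ[ℚ] F, σ a = a) (hb : ∀ σ : F ≃ₐ[ℚ] F, σ b = b) :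
    Hm (Wab a b) (Wab (-2 * a) (a ^ 2 - 4 * b)) := by
  have h2 : (2 : F) ≠ 0 := by norm_num
  refine ⟨phiHom hD h2, ?_, ?_⟩
  · intro P hP
    refine ⟨2, two_ne_zero, ?_⟩
    rcases phiHom_ker hD h2 P hP with h | h
    · rw [h, smul_zero]
    · rw [h, two_smul]
      exact T_add_T hD
  · intro σ g g' hg hg' P
    show phi hD (g P) = g' (phi hD P)
    rcases P with _ | ⟨x, y, hn⟩
    · change phi hD (g 0) = g' 0
      rw [hg.1, hg'.1]
      rfl
    · obtain ⟨h1, e1⟩ := hg.2 x y hn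
      rw [e1]
      by_cases hx : x = 0
      · have hx' : σ x = 0 := by rw [hx, map_zero]
        rw [phi_T hD _ hx, phi_T hD _ hx', hg'.1]
      · have hx' : σ x ≠ 0 := fun h => hx (by simpa using h)
        obtain ⟨h3, e3⟩ := hg'.2 _ _ (Pool.Agent.Q269.IsoFour.nonsing hD (img hx (eqn.1 hn.1)))
        rw [phi_some hD _ hx', phi_some hD _ hx, e3]
        refine some_ext ?_ ?_ _ _
        · simp only [map_div₀, map_pow]
        · simp only [map_div₀, map_pow, map_mul, map_sub, hb]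

omit [DecidableEq F] in
theorem sig_int (σ : F ≃ₐ[ℚ] F) (n : ℤ) : σ (n : F) = n := map_intCast σ n

omit [DecidableEq F] in
theorem ef_sh (A B : ℤ) : EF A B F = (Sh A B).baseChange F := by
  ext <;> simp [EF, Sh, WeierstrassCurve.baseChange, WeierstrassCurve.map]

omit [DecidableEq F] in
theorem wab_bc (a b : ℤ) : (Wab (a : F) (b : F)) = (Wab (a : ℚ) (b : ℚ)).baseChange F := by
  ext <;> simp [Wab, WeierstrassCurve.baseChange, WeierstrassCurve.map]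

theorem hm_scale {A B A' B' : ℤ} {u : ℤ} (hu : u ≠ 0) (hA : A = u ^ 4 * A') (hB : B = u ^ 6 * B')
    (hD : 4 * A' ^ 3 + 27 * B' ^ 2 ≠ 0) : Hm (EF A B F) (EF A' B' F) := by
  have hv : VR (EF A B F) (EF A' B' F) (u : F) 0 0 0 := by
    refine ⟨by exact_mod_cast hu, ?_, ?_, ?_, ?_, ?_⟩ <;> simp [EF, hA, hB]
  exact hm_vr' hv (ef_ne hD) (fun σ => sig_int σ u) (fun σ => map_zero σ) (fun σ => map_zero σ)
    (fun σ => map_zero σ)

theorem hm_iso {A B e s : ℤ} (hA : A = s ^ 2 - 3 * e ^ 2) (hB : B = 2 * e ^ 3 - s ^ 2 * e)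
    (hD : 4 * A ^ 3 + 27 * B ^ 2 ≠ 0) :
    Hm (EF A B F) (EF (-3 * e ^ 2 - 4 * s ^ 2) (2 * e ^ 3 - 8 * e * s ^ 2) F) := by
  have hdisc : 4 * A ^ 3 + 27 * B ^ 2 = s ^ 4 * (4 * s ^ 2 - 9 * e ^ 2) := by
    rw [hA, hB]; ring
  rw [hdisc] at hD
  have hs : s ≠ 0 := by
    rintro rfl; apply hD; ring
  have h9 : 4 * s ^ 2 - 9 * e ^ 2 ≠ 0 := by
    intro h; apply hD; rw [h]; ring
  have hDQ : (Wab (-2 * ((3 * e : ℤ) : F)) (((3 * e : ℤ) : F) ^ 2 - 4 * ((s ^ 2 : ℤ) : F))).Δ ≠ 0 := by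
    rw [delta]
    have e1 : ((3 * e : ℤ) : F) ^ 2 - 4 * ((s ^ 2 : ℤ) : F) ≠ 0 := by
      intro h
      apply h9
      have : ((4 * s ^ 2 - 9 * e ^ 2 : ℤ) : F) = 0 := by push_cast at h ⊢; linear_combination -h
      exact_mod_cast this
    have e2 : (-2 * ((3 * e : ℤ) : F)) ^ 2 - 4 * (((3 * e : ℤ) : F) ^ 2 - 4 * ((s ^ 2 : ℤ) : F))
        = 16 * (s : F) ^ 2 := by push_cast; ring
    rw [e2]
    have hsQ : (s : F) ≠ 0 := by exact_mod_cast hs
    exact mul_ne_zero (mul_ne_zero (by norm_num) (pow_ne_zero 2 e1))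
      (mul_ne_zero (by norm_num) (pow_ne_zero 2 hsQ))
  have hv1 : VR (EF A B F) (Wab ((3 * e : ℤ) : F) ((s ^ 2 : ℤ) : F)) 1 (e : F) 0 0 := by
    refine ⟨one_ne_zero, ?_, ?_, ?_, ?_, ?_⟩
    · simp [EF, Wab]
    · simp [EF, Wab]
    · simp [EF, Wab]
    · simp only [EF, Wab, hA]; push_cast; ring
    · simp only [EF, Wab, hA, hB]; push_cast; ring
  have hv2 : VR (EF (-3 * e ^ 2 - 4 * s ^ 2) (2 * e ^ 3 - 8 * e * s ^ 2) F)
      (Wab (-2 * ((3 * e : ℤ) : F)) (((3 * e : ℤ) : F) ^ 2 - 4 * ((s ^ 2 : ℤ) : F))) 1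
      (-2 * (e : F)) 0 0 := by
    refine ⟨one_ne_zero, ?_, ?_, ?_, ?_, ?_⟩
    · simp [EF, Wab]
    · simp only [EF, Wab]; push_cast; ring
    · simp [EF, Wab]
    · simp only [EF, Wab]; push_cast; ring
    · simp only [EF, Wab]; push_cast; ring
  have hD1 := delta_ne hDQ
  have k1 : Hm (EF A B F) (Wab ((3 * e : ℤ) : F) ((s ^ 2 : ℤ) : F)) :=
    hm_vr' hv1 hD1 (fun σ => map_one σ) (fun σ => sig_int σ e) (fun σ => map_zero σ)
      (fun σ => map_zero σ)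
  have k2 := hm_phi hDQ (fun σ => sig_int σ _) (fun σ => sig_int σ _)
  have k3 : Hm (Wab (-2 * ((3 * e : ℤ) : F)) (((3 * e : ℤ) : F) ^ 2 - 4 * ((s ^ 2 : ℤ) : F)))
      (EF (-3 * e ^ 2 - 4 * s ^ 2) (2 * e ^ 3 - 8 * e * s ^ 2) F) :=
    hm_vr hv2 hDQ (fun σ => map_one σ)
      (fun σ => by rw [show (-2 * (e : F)) = ((-2 * e : ℤ) : F) by push_cast; ring]; exact sig_int σ _)
      (fun σ => map_zero σ) (fun σ => map_zero σ)
  have m1 : ∀ σ : F ≃ₐ[ℚ] F, ∃ g : (Wab ((3 * e : ℤ) : F) ((s ^ 2 : ℤ) : F)).toAffine.Point →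
      (Wab ((3 * e : ℤ) : F) ((s ^ 2 : ℤ) : F)).toAffine.Point, Act σ g :=
    fun σ => exists_act σ _ _ (wab_bc _ _)
  have m2 : ∀ σ : F ≃ₐ[ℚ] F, ∃ g : (Wab (-2 * ((3 * e : ℤ) : F))
      (((3 * e : ℤ) : F) ^ 2 - 4 * ((s ^ 2 : ℤ) : F))).toAffine.Point →
      (Wab (-2 * ((3 * e : ℤ) : F)) (((3 * e : ℤ) : F) ^ 2 - 4 * ((s ^ 2 : ℤ) : F))).toAffine.Point,
      Act σ g := by
    intro σ
    refine exists_act σ _ (Wab ((-2 * (3 * e) : ℤ) : ℚ) (((3 * e) ^ 2 - 4 * s ^ 2 : ℤ) : ℚ)) ?_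
    rw [← wab_bc]
    congr 1 <;> push_cast <;> ring
  exact (k1.trans k2 m1).trans k3 m2

/-- the multiplicities of the curves in the forward relation -/
theorem mult_FR (χ : (F ≃ₐ[ℚ] F) →* ℂˣ) {c : ℤ × ℤ} {c' : (ℤ × ℤ) × ℤ} (h : FR c c')
    (hD : Dn c) (hD' : Dn c'.1) :
    finrank ℂ (PartC F χ (Sh c.1 c.2)) ≤ finrank ℂ (PartC F χ (Sh c'.1.1 c'.1.2)) := by
  obtain ⟨e, s, u, ⟨h1, h2⟩, hu, -, h4, h5⟩ := h
  have g1 : Hm (EF c.1 c.2 F) (EF (-3 * e ^ 2 - 4 * s ^ 2) (2 * e ^ 3 - 8 * e * s ^ 2) F) :=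
    hm_iso h1 h2 hD
  have g2 : Hm (EF (-3 * e ^ 2 - 4 * s ^ 2) (2 * e ^ 3 - 8 * e * s ^ 2) F) (EF c'.1.1 c'.1.2 F) :=
    hm_scale (u := u) hu.ne' (by linear_combination h4) (by linear_combination h5) hD'
  have g3 := g1.trans g2 (fun σ => exists_act σ _ _ (ef_sh _ _))
  rw [ef_sh, ef_sh] at g3
  obtain ⟨f, hf1, hf2⟩ := g3
  have hfin : Module.Finite ℤ ((Sh c'.1.1 c'.1.2).baseChange F).toAffine.Point := by
    rw [← ef_sh]
    exact Module.Finite.iff_addGroup_fg.2 (Pool.Agent.Q286.EQ.mordell_weil F _ (ef_ne hD'))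
  exact part_le χ hfin f hf1 (fun σ P => hf2 σ _ _ (act_gact _ σ) (act_gact _ σ) P)

end act

end Pool.Agent.Q269.CharFour
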